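import Pool.Agent.H47.PL.Targets2

/-! Board `pln_modules`, row LOC: flat formulas are hard for local search. -/

set_option autoImplicit false

namespace Pool.Agent.H19.PL

open Finset Pool.Agent.H97.RK Pool.Agent.H47.PL

private theorem ph_nonneg (n a b d : ℕ) : 0 ≤ ph n a b d := by
  unfold ph
  positivity

private theorem dst_self' {n : ℕ} (y : Fin n → Bool) : dst y y = 0 := by
  unfold dst
  rw [Finset.card_eq_zero, Finset.filter_eq_empty_iff]
  intro u _ h
  exact h rfl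

private theorem exch {n k m : ℕ} (B : Finset (Fin n → Bool)) (q : Fin m → ℝ)
    (C : ℝ) (f : (Fin n → Bool) → (Fin n → Bool) → ℝ) (g : Fin m → Fin k → (Fin n → Bool)) :
    ∑ c, q c * ((∑ i, ∑ z ∈ B, C * f (g c i) z) / k) =
      ∑ z ∈ B, C * ∑ c, q c * ((∑ i, f (g c i) z) / k) := by
  have h1 : ∀ c, q c * ((∑ i, ∑ z ∈ B, C * f (g c i) z) / k) =
      ∑ z ∈ B, C * (q c * ((∑ i, f (g c i) z) / k)) := by
    intro c
    rw [Finset.sum_comm, Finset.sum_div, Finset.mul_sum]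
    refine Finset.sum_congr rfl fun z _ => ?_
    rw [← Finset.mul_sum]
    ring
  rw [Finset.sum_congr rfl fun c _ => h1 c, Finset.sum_comm]
  refine Finset.sum_congr rfl fun z _ => ?_
  rw [Finset.mul_sum]

theorem pf_LOC (hLPO : T_LPO) (hLAV : T_LAV) (hLNB : T_LNB) (hLST : T_LST) (hLRN : T_LRN) :
    T_LOC := by
  intro ε Γ hε
  obtain ⟨α, hα, hα16, K1, hK1⟩ := hLNB (ε / 2) (by linarith)
  obtain ⟨K2, hK2⟩ := hLPO α hα hα16
  obtain ⟨N, hN⟩ := exists_nat_ge (Γ / α)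
  refine ⟨α, ε / 2, max 1 N, hα, by linarith, by linarith, le_max_left _ _,
    max (max K1 K2) 1, ?_⟩
  intro n k m F B hn hk hloc hB pol hsp t
  have hn1 : K1 ≤ n := le_trans (le_trans (le_max_left _ _) (le_max_left _ _)) hn
  have hn2 : K2 ≤ n := le_trans (le_trans (le_max_right _ _) (le_max_left _ _)) hn
  have hn3 : 1 ≤ n := le_trans (le_max_right _ _) hn
  have hΓ : Γ ≤ α * ((max 1 N : ℕ) : ℝ) := by
    have h1 : (N : ℝ) ≤ ((max 1 N : ℕ) : ℝ) := by exact_mod_cast le_max_right 1 N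
    have h2 : Γ / α ≤ ((max 1 N : ℕ) : ℝ) := hN.trans h1
    rw [div_le_iff₀ hα] at h2
    linarith
  obtain ⟨a, b, ha, hb1, hb2, hbn, hab, hfin⟩ := hK1 n hn1
  have hCa : 0 < ((n - 1).choose a : ℝ) := by
    exact_mod_cast Nat.choose_pos (by omega : a ≤ n - 1)
  have hCb : 0 < ((n - 1).choose b : ℝ) := by
    exact_mod_cast Nat.choose_pos (by omega : b ≤ n - 1)
  have hbr : 1 / ((n - 1).choose b : ℝ) ≤ 2 * (n + 1) / 2 ^ n + 1 / ((n - 1).choose b : ℝ) := by
    have : (0 : ℝ) ≤ 2 * (n + 1) / 2 ^ n := by positivity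
    linarith
  have hpot : ∀ (d : ℕ) (p : ℝ), 1 ≤ d → 0 ≤ p → p ≤ 1 → p ≤ (d : ℝ) / n + 2 * α →
      p * ph n a b (d - 1) + (1 - p) * ph n a b (d + 1) ≤
        ph n a b d + 1 / ((n - 1).choose b : ℝ) :=
    fun d p hd h0 h1 h2 => hK2 n a b d p hn2 ha hb1 hb2 hd h0 h1 h2
  have hmain := hLRN n k m F Γ pol B
    (fun y => ∑ z ∈ B, ((n - 1).choose a : ℝ) * ph n a b (dst y z))
    (B.card * (((n - 1).choose a : ℝ) * (2 * (n + 1) / 2 ^ n + 1 / ((n - 1).choose b : ℝ))))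
    hk hsp ?_ ?_ ?_ ?_ ?_ t
  · refine hmain.trans ?_
    have hg : 0 ≤ guess n k m := by
      unfold guess
      have h1 : (1 / 2 : ℝ) ^ k ≤ 1 := pow_le_one₀ (by norm_num) (by norm_num)
      have h2 : 0 ≤ (1 - (1 / 2 : ℝ) ^ k) ^ m := pow_nonneg (by linarith) m
      positivity
    have h1 : (B.card : ℝ) * (((n - 1).choose a : ℝ) *
        (2 * (n + 1) / 2 ^ n + 1 / ((n - 1).choose b : ℝ))) ≤
        (2 : ℝ) ^ (ε * n) * guess n k m := by
      calc (B.card : ℝ) * (((n - 1).choose a : ℝ) *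
            (2 * (n + 1) / 2 ^ n + 1 / ((n - 1).choose b : ℝ)))
          ≤ (B.card : ℝ) * ((2 : ℝ) ^ (ε / 2 * n) / 2 ^ n) :=
            mul_le_mul_of_nonneg_left hfin (Nat.cast_nonneg _)
        _ ≤ ((2 : ℝ) ^ (ε / 2 * n) * (2 ^ n * guess n k m)) * ((2 : ℝ) ^ (ε / 2 * n) / 2 ^ n) :=
            mul_le_mul_of_nonneg_right hB (by positivity)
        _ = ((2 : ℝ) ^ (ε / 2 * n) * (2 : ℝ) ^ (ε / 2 * n)) * guess n k m := by
            field_simp
        _ = (2 : ℝ) ^ (ε * n) * guess n k m := by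
            rw [← Real.rpow_add (by norm_num : (0 : ℝ) < 2)]
            congr 2
            ring
    have h2 : (0 : ℝ) ≤ (t : ℝ) + 1 := by positivity
    calc ((t : ℝ) + 1) * ((B.card : ℝ) * (((n - 1).choose a : ℝ) *
          (2 * (n + 1) / 2 ^ n + 1 / ((n - 1).choose b : ℝ))))
        ≤ ((t : ℝ) + 1) * ((2 : ℝ) ^ (ε * n) * guess n k m) := mul_le_mul_of_nonneg_left h1 h2
      _ = (2 : ℝ) ^ (ε * n) * (t + 1) * guess n k m := by ring
  · intro y
    exact Finset.sum_nonneg fun z _ => mul_nonneg hCa.le (ph_nonneg _ _ _ _)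
  · intro y hy
    have h1 : ((n - 1).choose a : ℝ) * ph n a b (dst y y) = 1 := by
      unfold ph
      rw [dst_self', Nat.add_zero, Nat.min_eq_left hab]
      field_simp
    rw [← h1]
    exact Finset.single_le_sum
      (f := fun z => ((n - 1).choose a : ℝ) * ph n a b (dst y z))
      (fun z _ => mul_nonneg hCa.le (ph_nonneg _ _ _ _)) hy
  · intro y hy
    by_contra hyB
    obtain ⟨c, hc⟩ := hloc.low y hyB
    unfold vio at hc
    rw [Finset.mem_filter] at hc
    obtain ⟨i, hi⟩ := hy c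
    exact hc.2 i hi
  · rw [Finset.sum_comm, Finset.sum_div]
    have h1 : ∀ z ∈ B, (∑ y, ((n - 1).choose a : ℝ) * ph n a b (dst y z)) / 2 ^ n ≤
        ((n - 1).choose a : ℝ) * (2 * (n + 1) / 2 ^ n + 1 / ((n - 1).choose b : ℝ)) := by
      intro z _
      rw [← Finset.mul_sum, mul_div_assoc]
      exact mul_le_mul_of_nonneg_left (hLAV n a b z hn3 hbn) hCa.le
    refine (Finset.sum_le_sum h1).trans ?_
    rw [Finset.sum_const, nsmul_eq_mul]
  · intro y q hy hq hcond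
    rw [exch B q ((n - 1).choose a : ℝ) (fun u z => ph n a b (dst u z))
      (fun c i => flp y (F c i).1)]
    have h1 : ∀ z ∈ B, ((n - 1).choose a : ℝ) *
        ∑ c, q c * ((∑ i, ph n a b (dst (flp y (F c i).1) z)) / k) ≤
        ((n - 1).choose a : ℝ) * ph n a b (dst y z) +
        ((n - 1).choose a : ℝ) * (2 * (n + 1) / 2 ^ n + 1 / ((n - 1).choose b : ℝ)) := by
      intro z hz
      rw [← mul_add]
      refine mul_le_mul_of_nonneg_left ?_ hCa.le
      have h2 := hLST n k m F α Γ (max 1 N) B a b hk hα (le_max_left _ _) hΓ hloc hpot y z q hy hz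
        hq hcond
      linarith
    refine (Finset.sum_le_sum h1).trans ?_
    rw [Finset.sum_add_distrib, Finset.sum_const, nsmul_eq_mul]

end Pool.Agent.H19.PL
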