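import Pool.Agent.H47.PL.Targets

/-! Board `pln_modules`, row NS1: one term of the sum. -/

set_option autoImplicit false

namespace Pool.Agent.H19.PL

open Finset Pool.Agent.H97.RK Pool.Agent.H47.PL

private theorem key_ineq (a c : ℝ) (ha : 2 ≤ a) (hc : 0 ≤ c) :
    a - 2 + c ≤ (a - 1) * (1 - 1 / a) * (1 + 4 * c / a) := by
  have ha0 : 0 < a := by linarith
  have h1 : (a - 1) * (1 - 1 / a) * (1 + 4 * c / a) - (a - 2 + c) =
      (a + c * (4 * (a - 1) ^ 2 - a ^ 2)) / a ^ 2 := by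
    field_simp
    ring
  have h2 : 0 ≤ 4 * (a - 1) ^ 2 - a ^ 2 := by nlinarith
  have h3 : 0 ≤ (a + c * (4 * (a - 1) ^ 2 - a ^ 2)) / a ^ 2 := by positivity
  linarith

theorem pf_NS1 : T_NS1 := by
  intro n k m w ξ hk hkn hwn hξ hξ1
  obtain ⟨N, hN⟩ : ∃ N : ℝ, N = (n.descFactorial k : ℝ) := ⟨_, rfl⟩
  obtain ⟨M, hM⟩ : ∃ M : ℝ, M = ((n - w).descFactorial k : ℝ) := ⟨_, rfl⟩
  obtain ⟨a, ha⟩ : ∃ a : ℝ, a = (2 : ℝ) ^ k := ⟨_, rfl⟩
  have hN0 : 0 < N := by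
    rw [hN]
    exact_mod_cast Nat.descFactorial_pos.2 hkn
  have hM0 : 0 ≤ M := by
    rw [hM]
    exact Nat.cast_nonneg _
  have hMN : M ≤ N := by
    rw [hM, hN]
    exact_mod_cast Nat.descFactorial_le k (Nat.sub_le n w)
  have ha2 : 2 ≤ a := by
    rw [ha]
    calc (2 : ℝ) = 2 ^ 1 := by norm_num
      _ ≤ 2 ^ k := pow_le_pow_right₀ (by norm_num) hk
  have hhalf : (1 / 2 : ℝ) ^ k = 1 / a := by
    rw [ha, div_pow, one_pow]
  rw [← hN, ← hM, ← ha, hhalf]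
  have h0 : 0 ≤ (a - 2) * N + M := by nlinarith
  refine ⟨pow_le_pow_left₀ h0 (by nlinarith) m, fun hw => ?_⟩
  obtain ⟨c, hc⟩ : ∃ c : ℝ, c = (1 - ξ) ^ k := ⟨_, rfl⟩
  have hc0 : 0 ≤ c := by
    rw [hc]
    exact pow_nonneg (by linarith) k
  have hnpos : (0 : ℝ) < n := by
    exact_mod_cast (lt_of_lt_of_le hk hkn : 0 < n)
  have hMc : M ≤ c * N := by
    have h1 : M * (n : ℝ) ^ k ≤ ((n - w : ℕ) : ℝ) ^ k * N := by
      rw [hM, hN]
      exact_mod_cast descFactorial_le (Nat.sub_le n w) k hkn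
    have h2 : ((n - w : ℕ) : ℝ) ≤ (1 - ξ) * n := by
      rw [Nat.cast_sub hwn]
      linarith
    have h3 : ((n - w : ℕ) : ℝ) ^ k ≤ ((1 - ξ) * n) ^ k :=
      pow_le_pow_left₀ (Nat.cast_nonneg _) h2 k
    rw [mul_pow, ← hc] at h3
    have h4 : M * (n : ℝ) ^ k ≤ (c * N) * (n : ℝ) ^ k := by
      calc M * (n : ℝ) ^ k ≤ ((n - w : ℕ) : ℝ) ^ k * N := h1
        _ ≤ (c * (n : ℝ) ^ k) * N := mul_le_mul_of_nonneg_right h3 hN0.le
        _ = (c * N) * (n : ℝ) ^ k := by ring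
    exact le_of_mul_le_mul_right h4 (pow_pos hnpos k)
  rw [← hc]
  have h5 : (a - 2) * N + M ≤ ((a - 1) * N) * (1 - 1 / a) * Real.exp (4 * c / a) := by
    have h6 := key_ineq a c ha2 hc0
    have h7 : 1 + 4 * c / a ≤ Real.exp (4 * c / a) := by
      have := Real.add_one_le_exp (4 * c / a)
      linarith
    have h8 : 0 ≤ (a - 1) * (1 - 1 / a) := by
      apply mul_nonneg (by linarith)
      rw [sub_nonneg, div_le_one (by linarith)]
      linarith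
    have h9 : a - 2 + c ≤ (a - 1) * (1 - 1 / a) * Real.exp (4 * c / a) :=
      h6.trans (mul_le_mul_of_nonneg_left h7 h8)
    calc (a - 2) * N + M ≤ (a - 2 + c) * N := by nlinarith
      _ ≤ ((a - 1) * (1 - 1 / a) * Real.exp (4 * c / a)) * N :=
          mul_le_mul_of_nonneg_right h9 hN0.le
      _ = ((a - 1) * N) * (1 - 1 / a) * Real.exp (4 * c / a) := by ring
  have h10 := pow_le_pow_left₀ h0 h5 m
  rw [mul_pow, mul_pow, ← Real.exp_nat_mul] at h10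
  have h11 : (m : ℝ) * (4 * c / a) = 4 * c * m / a := by ring
  rw [h11] at h10
  exact h10

end Pool.Agent.H19.PL
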