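import Pool.Agent.H20.RKS.RUN
import Pool.Agent.H47.PL.Targets

/-! Board `pln_modules`, row RND: the path ends in a wide line; the variables in `A` are fixed. -/

set_option autoImplicit false

namespace Pool.Agent.H19.PL

open Finset Pool.Agent.H97.RK Pool.Agent.H47.PL
open Pool.Agent.H20.RKS (dst_triangle dst_self ph ph_le ph_add)

/-- values outside `A ∪ W` do not matter -/
private theorem st_congr {n k m : ℕ} {F : Fml n k m} {j t : ℕ} {y x : Fin n → Bool}
    {A W : Finset (Fin n)} {J : Finset (Fin m)} (h : St F j t y A W J)
    (hx : ∀ u ∈ A ∪ W, x u = y u) : St F j t x A W J := by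
  refine ⟨?_, h.mem, ?_, ?_, h.crd, h.lt⟩
  · intro c hc
    obtain ⟨i, hi1, hi2⟩ := h.sat c hc
    exact ⟨i, hi1, by rw [hx _ hi1, hi2]⟩
  · intro c hc i hi
    rw [hx _ (mem_union_left _ (mem_sdiff.1 hi).1)]
    exact h.alv c hc i hi
  · intro c hc hal
    refine h.out c hc fun i hi => ?_
    rw [← hx _ (mem_union_left _ hi)]
    exact hal i hi

theorem pf_RND (hSTD : T_STD) (hFGT : T_FGT) : T_RND := by
  intro n k m F j t d e s₀ hP hd S line rule hder R h r hr hpath yy AA WW JJ hst0 hfal0 hvs0 x hx
  have ht1 := hP.t1
  have hed := hP.ed
  have hstx : St F j t x AA WW JJ := st_congr hst0 hx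
  have hfalx : Falsified (line r) x := by
    intro l hl
    rw [hx _ (mem_union_left _ (hvs0 (Finset.mem_image_of_mem _ hl)))]
    exact hfal0 l hl
  by_cases hn : n ≤ (AA ∪ vs (line r)).card + (h + 3 * d)
  · refine ⟨r, hr, x, hfalx, hn, ?_⟩
    rw [dst_self]
    exact Nat.zero_le _
  · push Not at hn
    rw [Finset.union_eq_left.2 hvs0] at hn
    have key : ∀ i, i < S → ∀ (l0 q : List (Fin n)) (A A0 W : Finset (Fin n)) (J : Finset (Fin m))
        (y : Fin n → Bool) (p : ℕ), Path rule r i (q ++ l0) → St F j t y A W J →
        Falsified (line i) y → vs (line i) ⊆ A → AA ⊆ A → A ⊆ A0 ∪ q.toFinset →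
        A0.card + h + 3 * d < n → A.card + 1 + e + d ≤ n → dst y x ≤ 2 * t * p + J.card →
        p * d ≤ ph R l0 → ∃ i, i < S ∧ ∃ y : Fin n → Bool, Falsified (line i) y ∧
          n ≤ (AA ∪ vs (line i)).card + (h + 3 * d) ∧
          dst y x ≤ 2 * t * (n * R / d + 1) := by
      intro i
      induction i using Nat.strong_induction_on with
      | _ i ih =>
        intro hi l0 q A A0 W J y p hpi hst hfal hvs hAA hA hA0 hAc hdst hph
        obtain ⟨i', y', A', W', J', q', hi', hst', hfal', hvs', hA', hAc', -, hdst', hpi'⟩ :=
          hSTD n k m F j t d e s₀ hP S line rule hder i y A W J hi hst hfal hvs hAc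
        have hpath' := hpi' _ _ hpi
        rw [← List.append_assoc] at hpath'
        have hAA' : AA ⊆ A' := by
          rw [hA']
          exact hAA.trans Finset.subset_union_left
        have hsub : A' ⊆ A0 ∪ (q' ++ q).toFinset := by
          rw [hA', List.toFinset_append]
          apply Finset.union_subset
          · refine hA.trans (Finset.union_subset Finset.subset_union_left ?_)
            exact Finset.subset_union_right.trans Finset.subset_union_right
          · exact Finset.subset_union_left.trans Finset.subset_union_right
        have hd' : dst y' x ≤ 2 * t * p + J'.card := by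
          have := dst_triangle y' y x
          omega
        have hi'S : i' < S := hi'.trans hi
        by_cases hc : A'.card + 1 + e + d ≤ n
        · exact ih i' hi' hi'S l0 (q' ++ q) A' A0 W' J' y' p hpath' hst' hfal' hvs' hAA' hsub hA0
            hc hd' hph
        · have hpR : p ≤ n * R / d := by
            rw [Nat.le_div_iff_mul_le (by omega)]
            exact hph.trans (ph_le R l0)
          have hJ' := hst'.lt
          by_cases hw : n ≤ (AA ∪ vs (line i')).card + (h + 3 * d)
          · refine ⟨i', hi'S, y', hfal', hw, ?_⟩
            have h1 : 2 * t * (p + 1) ≤ 2 * t * (n * R / d + 1) :=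
              Nat.mul_le_mul_left _ (by omega)
            have h2 : 2 * t * (p + 1) = 2 * t * p + 2 * t := by ring
            omega
          · push Not at hw
            have hsub2 : AA ∪ vs (line i') ⊆ A' := Finset.union_subset hAA' hvs'
            obtain ⟨y'', W'', J'', hst'', heq, hdst''⟩ :=
              hFGT n k m F j t d e s₀ hP y' A' (AA ∪ vs (line i')) W' J' hst' hsub2 (by omega)
            have hfal'' : Falsified (line i') y'' := by
              intro l hl
              rw [heq l.1 (mem_union_right _ (Finset.mem_image_of_mem _ hl))]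
              exact hfal' l hl
            have hph' : (p + 1) * d ≤ ph R ((q' ++ q) ++ l0) := by
              have h1 := ph_add R h (q' ++ q) l0 (hpath i' _ hpath')
              have h2 : A'.card ≤ A0.card + (q' ++ q).toFinset.card :=
                (Finset.card_le_card hsub).trans (Finset.card_union_le _ _)
              have h3 : (p + 1) * d = p * d + d := by ring
              omega
            refine ih i' hi' hi'S ((q' ++ q) ++ l0) [] (AA ∪ vs (line i')) (AA ∪ vs (line i'))
              W'' J'' y'' (p + 1) hpath' hst'' hfal'' Finset.subset_union_right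
              Finset.subset_union_left Finset.subset_union_left (by omega) (by omega) ?_ hph'
            have h1 := dst_triangle y'' y' x
            have h2 : 2 * t * (p + 1) = 2 * t * p + 2 * t := by ring
            omega
    refine key r hr [] [] AA AA WW JJ x 0 Pool.Agent.H97.RK.Path.refl hstx hfalx hvs0
      (Finset.Subset.refl _) Finset.subset_union_left (by omega) (by omega) ?_ ?_
    · rw [dst_self]
      exact Nat.zero_le _
    · omega

end Pool.Agent.H19.PL
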