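import Pool.Agent.H47.PL.Targets

/-! Board `pln_modules`, row RSV: the interface between the adversary and the search. -/

set_option autoImplicit false

namespace Pool.Agent.H19.PL

open Finset Pool.Agent.H97.RK Pool.Agent.H47.PL

private theorem dm_insert {n : ℕ} (L : Finset (Fin n × Bool)) (v : Fin n) (b : Bool) :
    dm (insert (v, b) L) = insert v (dm L) := by
  unfold dm
  rw [Finset.image_insert]

private theorem mem_dm {n : ℕ} {L : Finset (Fin n × Bool)} {v : Fin n} {b : Bool}
    (h : (v, b) ∈ L) : v ∈ dm L := Finset.mem_image_of_mem Prod.fst h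

private theorem dm_card_le {n : ℕ} (L : Finset (Fin n × Bool)) : (dm L).card ≤ L.card :=
  Finset.card_image_le

private theorem agr_mono {n : ℕ} {τ : Fin n → Bool} {L : Finset (Fin n × Bool)}
    {a : Fin n × Bool} (h : Agr τ (insert a L)) : Agr τ L :=
  fun l hl => h l (mem_insert_of_mem hl)

private theorem agr_eq {n : ℕ} {τ τ' : Fin n → Bool} {L : Finset (Fin n × Bool)}
    (h : Agr τ L) (h' : Agr τ' L) : ∀ u ∈ dm L, τ' u = τ u := by
  intro u hu
  obtain ⟨l, hl, rfl⟩ := Finset.mem_image.1 hu
  rw [h l hl, h' l hl]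

theorem pf_RSV (hSOL : T_SOL) (hNC1 : T_NC1) (hNC2 : T_NC2) : T_RSV := by
  intro n k m F j t d e s₀ hP hd K s D ρ hK hρ hD hno
  obtain ⟨hS1, hS2, hS3, hS4⟩ := hSOL n k m F j t d e s₀ hP
  have hje := hP.je
  refine ⟨fun L W => W.card ≤ e ∧ ∃ J, ∀ τ, Sat F τ → Agr τ L → St F j t τ (dm L) W J,
    ⟨?_, ?_, ?_, ?_⟩⟩
  · refine ⟨by simp, ∅, fun τ _ _ => ?_⟩
    exact hS1 τ
  · intro L W h
    exact h.1
  · rintro L W v b τ ⟨-, J, hJ⟩ hLD hv hsat hagr
    have hst := hJ τ hsat (agr_mono hagr)
    have hc := dm_card_le L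
    obtain ⟨W', J', hWW, hst'⟩ := hS3 τ (dm L) W J v hst hsat (by omega)
    have h1 : W'.card ≤ e := by
      have h2 := hst'.crd
      have h3 : j * J'.card ≤ j * t := Nat.mul_le_mul_left _ hst'.lt.le
      omega
    refine ⟨W', hWW, h1, J', fun τ' hsat' hagr' => ?_⟩
    have heq := agr_eq hagr hagr'
    rw [dm_insert] at heq ⊢
    exact hS2 τ τ' _ W' J' hst' hsat' heq
  · rintro L W v b τ ⟨-, J, hJ⟩ hLD hv hvW hsat hagr ⟨S, r, line, rule, hSs, hr, hcor, hlr, hpath⟩
    have hst := hJ τ hsat (agr_mono hagr)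
    have hc := dm_card_le L
    have hvn : v ∉ dm L ∪ W := by
      rw [mem_union]
      rintro (h | h)
      · exact hv h
      · exact hvW h
    obtain ⟨y, W', J', hst', hyv, hy⟩ := hS4 τ (dm L) W J v hst hvn (by omega)
    have hτv : τ v = b := hagr (v, b) (mem_insert_self _ _)
    have hag := agr_mono hagr
    have hfal : Falsified (line r) y := by
      intro l hl
      have h1 := hlr l hl
      rw [mem_insert] at h1
      rcases h1 with h1 | h1
      · have h2 : l.1 = v := congrArg Prod.fst h1
        have h3 : (!l.2) = !b := congrArg Prod.snd h1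
        rw [h2, hyv, hτv, ← h3]
        cases l.2 <;> simp
      · rw [hy _ (mem_dm h1), hag _ h1]
        change (!l.2) ≠ l.2
        cases l.2 <;> simp
    have hvs : vs (line r) ⊆ insert v (dm L) := by
      intro u hu
      obtain ⟨l, hl, rfl⟩ := Finset.mem_image.1 hu
      have h1 := hlr l hl
      rw [mem_insert] at h1
      rw [mem_insert]
      rcases h1 with h1 | h1
      · left
        exact congrArg Prod.fst h1
      · right
        exact mem_dm h1
    have hcardA : (insert v (dm L)).card ≤ D := by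
      have := Finset.card_insert_le v (dm L)
      omega
    have hpath' : ∀ (i : ℕ) (l : List (Fin n)), Path rule r i l →
        (univ.filter fun v => k / K < l.count v).card ≤ ⌊ρ * n⌋₊ := by
      intro i l hl
      apply Nat.le_floor
      have h1 : (univ.filter fun v : Fin n => k / K < l.count v) =
          univ.filter fun v : Fin n => k < K * l.count v := by
        apply Finset.filter_congr
        intro u _
        rw [Nat.div_lt_iff_lt_mul (by omega), mul_comm]
      rw [h1]
      exact hpath i l hl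
    have h1 := hNC1 n k m F j t d e s₀ hP hd S line rule hcor (k / K) ⌊ρ * n⌋₊ r hr hpath'
      y (insert v (dm L)) W' J' hst' hfal hvs
    obtain ⟨N, hN1, hN2, hN3⟩ := hNC2 n k m F j t d e s₀ hP S line rule hcor
      y (insert v (dm L)) W' J' hst' r hr hfal hvs
    refine hno S hSs ?_ N (by omega) hN2 hN3
    refine h1.trans (Nat.mul_le_mul_left _ (Nat.mul_le_mul_right _ ?_))
    exact Nat.pow_le_pow_right (by norm_num) (by omega)

end Pool.Agent.H19.PL
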